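import Mathlib

/-! Chains of windows of consecutive primes under `p ↦ p + 2 ⌊π(p)/2⌋`. -/

set_option autoImplicit false

namespace Pool.Agent.Lib.MP_7f19fc_nt

open Finset

/-- The `j`-th prime, counted from zero. -/
noncomputable def q (j : ℕ) : ℕ := Nat.nth Nat.Prime j

/-- The odd one of `p + π p` and `p + π p - 1`. -/
noncomputable def s (j : ℕ) : ℕ := q j + 2 * ((j + 1) / 2)

theorem q_mono : StrictMono q := Nat.nth_strictMono Nat.infinite_setOfPred_prime

theorem q_prime (j : ℕ) : (q j).Prime := Nat.prime_nth_prime j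

theorem le_q (j : ℕ) : j + 2 ≤ q j := Nat.add_two_le_nth_prime j

theorem q_lt_iff {j n : ℕ} : q j < n ↔ j < Nat.count Nat.Prime n :=
  (Nat.lt_nth_iff_count_lt Nat.infinite_setOfPred_prime).symm

theorem count_q (j : ℕ) : Nat.count Nat.Prime (q j) = j :=
  Nat.count_nth_of_infinite Nat.infinite_setOfPred_prime j

theorem q_count {p : ℕ} (hp : p.Prime) : q (Nat.count Nat.Prime p) = p := Nat.nth_count hp

theorem s_mono : StrictMono s := strictMono_nat_of_lt_succ fun j => by
  have : q j < q (j + 1) := q_mono (Nat.lt_succ_self j)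
  unfold s; omega

theorem s_le (j : ℕ) : s j ≤ 2 * q j := by
  have := le_q j
  unfold s; omega

theorem q_succ_le (j : ℕ) : q (j + 1) ≤ 2 * q j := by
  obtain ⟨p, hp, h1, h2⟩ := Nat.exists_prime_lt_and_le_two_mul (q j) (q_prime j).ne_zero
  refine le_trans ?_ h2
  rw [← q_count hp]
  exact q_mono.monotone (q_lt_iff.1 h1)

theorem q_add_le (j M : ℕ) : q (j + M) ≤ 2 ^ M * q j := by
  induction M with
  | zero => simp
  | succ M ih =>
    have := q_succ_le (j + M)
    rw [pow_succ, ← add_assoc]; nlinarith

open Classical in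
/-- Primes below `s j` that are not values of `s`. -/
noncomputable def a (j : ℕ) : ℕ := #{y ∈ range (s j) | y.Prime ∧ y ∉ Set.range s}

/-- Indices below `j` with a composite value of `s`. -/
noncomputable def b (j : ℕ) : ℕ := #{i ∈ range j | ¬ (s i).Prime}

/-- The index of `s j` among the primes. -/
noncomputable def sig (j : ℕ) : ℕ := Nat.count Nat.Prime (s j)

theorem a_mono : Monotone a := fun _ _ h => by
  classical
  exact card_le_card (filter_subset_filter _ (range_subset_range.2 (s_mono.monotone h)))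

theorem b_mono : Monotone b := fun _ _ h =>
  card_le_card (filter_subset_filter _ (range_subset_range.2 h))

theorem sig_eq (j : ℕ) : sig j + b j = j + a j := by
  classical
  have h1 : #{i ∈ range j | (s i).Prime} + b j = j := by
    rw [b, card_filter_add_card_filter_not, card_range]
  have h2 : #{y ∈ range (s j) | y.Prime ∧ y ∈ Set.range s} = #{i ∈ range j | (s i).Prime} := by
    symm
    refine card_bij (fun i _ => s i) (fun i hi => ?_) (fun i _ k _ h => s_mono.injective h)
      fun y hy => ?_
    · rw [mem_filter, mem_range] at hi ⊢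
      exact ⟨s_mono hi.1, hi.2, i, rfl⟩
    · rw [mem_filter, mem_range] at hy
      obtain ⟨h1, h2, i, rfl⟩ := hy
      exact ⟨i, mem_filter.2 ⟨mem_range.2 (s_mono.lt_iff_lt.1 h1), h2⟩, rfl⟩
  have h3 : sig j = #{y ∈ range (s j) | y.Prime ∧ y ∈ Set.range s} + a j := by
    rw [sig, Nat.count_eq_card_filter_range, a, ← filter_filter, ← filter_filter,
      card_filter_add_card_filter_not]
  omega

theorem b_le_a (j : ℕ) : b j ≤ a j := by
  have h1 := sig_eq j
  have h2 : j ≤ sig j := by
    have := Nat.count_monotone Nat.Prime (show q j ≤ s j from Nat.le_add_right _ _)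
    rwa [count_q] at this
  omega

/-- Non-primes `x ≤ X` with `x + π x` prime. -/
def cmp (X : ℕ) : ℕ := #{x ∈ range (X + 1) | ¬ x.Prime ∧ (x + Nat.primeCounting x).Prime}

theorem cmp_mono : Monotone cmp := fun _ _ h =>
  card_le_card (filter_subset_filter _ (range_subset_range.2 (by omega)))

theorem exists_cmp {y : ℕ} (hy : y.Prime) (h : y ∉ Set.range s) (h3 : y ≠ 3) :
    ∃ x, ¬ x.Prime ∧ x + Nat.primeCounting x = y := by
  have ex : ∃ x, y ≤ x + Nat.primeCounting x := ⟨y, Nat.le_add_right _ _⟩
  have h1 := Nat.find_spec ex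
  have h2 := @Nat.find_min _ _ ex
  generalize Nat.find ex = x at h1 h2
  have y2 := hy.two_le
  rcases x with _ | x
  · simp at h1; omega
  have h4 := h2 (Nat.lt_succ_self x)
  have h5 : Nat.primeCounting (x + 1) =
      Nat.primeCounting x + if (x + 1).Prime then 1 else 0 := Nat.count_succ _ _
  by_cases hx : (x + 1).Prime
  · exfalso
    rw [if_pos hx] at h5
    have h6 : q (Nat.primeCounting x) = x + 1 := q_count hx
    have h7 : s (Nat.primeCounting x) ≠ y := fun e => h ⟨_, e⟩
    rw [s, h6] at h7
    rcases hx.eq_two_or_odd with e | e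
    · obtain rfl : x = 1 := by omega
      rw [Nat.primeCounting_one] at h4 h5 h7
      omega
    · rcases hy.eq_two_or_odd with e' | e'
      · have := hx.two_le
        omega
      · omega
  · rw [if_neg hx] at h5
    exact ⟨x + 1, hx, by omega⟩

theorem a_le (j : ℕ) : a j ≤ cmp (s j) + 1 := by
  classical
  have : {y ∈ range (s j) | y.Prime ∧ y ∉ Set.range s} ⊆ insert 3
      (({x ∈ range (s j + 1) | ¬ x.Prime ∧ (x + Nat.primeCounting x).Prime} : Finset ℕ).image
        fun x => x + Nat.primeCounting x) := fun y hy => by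
    rw [mem_filter, mem_range] at hy
    by_cases h3 : y = 3
    · exact mem_insert.2 (Or.inl h3)
    obtain ⟨x, h1, h2⟩ := exists_cmp hy.2.1 hy.2.2 h3
    exact mem_insert_of_mem (mem_image.2 ⟨x, mem_filter.2
      ⟨mem_range.2 (by omega), h1, h2 ▸ hy.2.1⟩, h2⟩)
  exact (card_le_card this).trans ((card_insert_le _ _).trans
    (Nat.add_le_add_right card_image_le 1))

theorem tele {f : ℕ → ℕ} (hf : Monotone f) (M H n B : ℕ) (hB : ∀ j < n, f (j + M) ≤ B) :
    H * #{j ∈ range n | f j + H ≤ f (j + M)} ≤ M * B := by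
  rcases n with _ | n
  · simp
  have h1 : ∑ j ∈ range M, f j + ∑ j ∈ range (n + 1), f (M + j) =
      ∑ j ∈ range (n + 1), f j + ∑ j ∈ range M, f (n + 1 + j) := by
    rw [← sum_range_add, ← sum_range_add, add_comm M]
  have h2 : ∑ j ∈ range M, f (n + 1 + j) ≤ M * B := by
    refine (sum_le_card_nsmul _ _ B fun j hj => ?_).trans (by simp)
    exact (hf (by have := mem_range.1 hj; omega)).trans (hB n (Nat.lt_succ_self n))
  have h3 : ∑ j ∈ range (n + 1), f j + H * #{j ∈ range (n + 1) | f j + H ≤ f (j + M)} ≤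
      ∑ j ∈ range (n + 1), f (M + j) := by
    rw [card_filter, mul_sum, ← sum_add_distrib]
    refine sum_le_sum fun j _ => ?_
    have := hf (Nat.le_add_right j M)
    rw [add_comm M]
    split_ifs <;> omega
  omega

/-- The window of length `M` at `j` is mapped to a window. -/
def Good (M j : ℕ) : Prop := a (j + M) + b (j + M) ≤ a j + b j

theorem Good.q_eq {M j : ℕ} (h : Good M j) {i : ℕ} (hi : i < M) : q (sig j + i) = s (j + i) := by
  have a1 := a_mono (Nat.le_add_right j i)
  have a2 := a_mono (show j + i ≤ j + M by omega)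
  have b1 := b_mono (Nat.le_add_right j i)
  have b2 := b_mono (show j + i + 1 ≤ j + M by omega)
  have b3 := b_mono (Nat.le_add_right (j + i) 1)
  have e1 := sig_eq j
  have e2 := sig_eq (j + i)
  unfold Good at h
  have hp : (s (j + i)).Prime := by
    by_contra hp
    have : b (j + i + 1) = b (j + i) + 1 := by
      rw [b, b, range_add_one, filter_insert, if_pos hp, card_insert_of_notMem (by simp)]
    omega
  rw [show sig j + i = sig (j + i) by omega]
  exact q_count hp

/-- Chains of good windows. -/
def Ch (M : ℕ) : ℕ → ℕ → Prop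
  | 0, _ => True
  | t + 1, j => Good M j ∧ Ch M t (sig j)

theorem Ch.prime {m t j : ℕ} (h : Ch (2 * m) t j) {u : ℕ} (hu : u ≤ t) :
    ∃ C, ∀ i < m, (C + q (j + 2 * i) + 2 * u * i).Prime := by
  induction t generalizing j u with
  | zero =>
    obtain rfl : u = 0 := by omega
    exact ⟨0, fun i _ => by simpa using q_prime _⟩
  | succ t ih =>
    rcases u with _ | u
    · exact ⟨0, fun i _ => by simpa using q_prime _⟩
    obtain ⟨C, hC⟩ := ih h.2 (show u ≤ t by omega)
    refine ⟨C + 2 * ((j + 1) / 2), fun i hi => ?_⟩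
    have h1 := hC i hi
    rw [h.1.q_eq (show 2 * i < 2 * m by omega), s,
      show (j + 2 * i + 1) / 2 = (j + 1) / 2 + i by omega] at h1
    rwa [show C + 2 * ((j + 1) / 2) + q (j + 2 * i) + 2 * (u + 1) * i =
      C + (q (j + 2 * i) + 2 * ((j + 1) / 2 + i)) + 2 * u * i by ring]

open Classical in
theorem card_not_good (M y : ℕ) :
    #{j ∈ range (Nat.primeCounting y) | ¬ Good M j} ≤ M * (2 * (cmp (2 ^ (M + 1) * y) + 1)) := by
  have := tele (f := fun j => a j + b j) (a_mono.add b_mono) M 1 (Nat.primeCounting y)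
    (2 * (cmp (2 ^ (M + 1) * y) + 1)) fun j hj => by
      have h1 : q j < y + 1 := q_lt_iff.2 hj
      have h2 := a_le (j + M)
      have h3 := b_le_a (j + M)
      have h4 : s (j + M) ≤ 2 ^ (M + 1) * y := by
        refine (s_le _).trans ?_
        rw [pow_succ', mul_assoc]
        exact Nat.mul_le_mul_left _ ((q_add_le j M).trans (Nat.mul_le_mul_left _ (by omega)))
      have h5 := cmp_mono h4
      omega
  rw [one_mul] at this
  refine le_trans (le_of_eq ?_) this
  exact congrArg card (filter_congr fun j _ => by unfold Good; omega)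

open Classical in
theorem card_not_ch {M : ℕ} (hM : 0 < M) (t y : ℕ) :
    #{j ∈ range (Nat.primeCounting y) | ¬ Ch M t j} ≤
      t * (M * (2 * (cmp (2 ^ (t + M + 1) * y) + 1))) := by
  induction t generalizing y with
  | zero => simp [Ch]
  | succ t ih =>
    have h1 := card_not_good M y
    have h2 := ih (2 * y)
    have h3 : #{j ∈ range (Nat.primeCounting y) | Good M j ∧ ¬ Ch M t (sig j)} ≤
        #{j ∈ range (Nat.primeCounting (2 * y)) | ¬ Ch M t j} := by
      refine card_le_card_of_injOn sig (fun j hj => ?_) fun j hj k hk e => ?_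
      · simp only [coe_filter, mem_range, Set.mem_ofPred_eq] at hj ⊢
        refine ⟨q_lt_iff.1 ?_, hj.2.2⟩
        have h4 : q j < y + 1 := q_lt_iff.2 hj.1
        have h5 := hj.2.1.q_eq hM
        have h6 := s_le j
        rw [add_zero, add_zero] at h5
        omega
      · simp only [coe_filter, mem_range, Set.mem_ofPred_eq] at hj hk
        have h5 := hj.2.1.q_eq hM
        have h6 := hk.2.1.q_eq hM
        rw [add_zero, add_zero] at h5 h6
        exact s_mono.injective (by rw [← h5, ← h6, e])
    have h4 : #{j ∈ range (Nat.primeCounting y) | ¬ Ch M (t + 1) j} ≤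
        #{j ∈ range (Nat.primeCounting y) | ¬ Good M j} +
          #{j ∈ range (Nat.primeCounting y) | Good M j ∧ ¬ Ch M t (sig j)} := by
      refine le_trans (card_le_card fun j hj => ?_) (card_union_le _ _)
      rw [mem_filter] at hj
      simp only [mem_filter, mem_union]
      by_cases g : Good M j
      · exact Or.inr ⟨hj.1, g, fun c => hj.2 ⟨g, c⟩⟩
      · exact Or.inl ⟨hj.1, g⟩
    have h5 : cmp (2 ^ (M + 1) * y) ≤ cmp (2 ^ (t + 1 + M + 1) * y) :=
      cmp_mono (Nat.mul_le_mul_right _ (Nat.pow_le_pow_right two_pos (by omega)))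
    rw [show 2 ^ (t + M + 1) * (2 * y) = 2 ^ (t + 1 + M + 1) * y by ring] at h2
    have h6 := Nat.mul_le_mul_left M (show 2 * (cmp (2 ^ (M + 1) * y) + 1) ≤
      2 * (cmp (2 ^ (t + 1 + M + 1) * y) + 1) by omega)
    rw [add_mul, one_mul]
    omega

end Pool.Agent.Lib.MP_7f19fc_nt
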