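import Pool.Agent.Lib.MP_7f19fc_nt.Win

/-! The count of composite arguments. -/

set_option autoImplicit false

namespace Pool.Agent.Lib.MP_7f19fc_nt

open Finset Real Filter Pool.Agent.Lib.MP_488d93_nt

open Classical in
theorem key : ∃ K c : ℕ, 0 < K ∧ 0 < c ∧
    ∀ᶠ Y : ℕ in atTop, (Y : ℝ) ≤ K * log Y * (cmp (c * Y) + 1) := by
  obtain ⟨T, L, T1, hL, hr⟩ := exists_par
  obtain ⟨m, hmd⟩ : ∃ m, m = 64 * T ^ 2 := ⟨_, rfl⟩
  have hm : 4 * T ≤ m := by nlinarith
  have m4 : (4 : ℝ) ≤ m := by exact_mod_cast (show 4 ≤ m by omega)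
  have mT : 4 * (T : ℝ) ≤ m := by exact_mod_cast hm
  have hmr : 64 * (T : ℝ) ^ 2 = m := by rw [hmd]; push_cast; ring
  have hpar : 64 * (m : ℝ) ^ 2 * (2 * (2 ^ 35 * m ^ 6) ^ 2) ^ m * (4 * T) ^ (#L * T) ≤
      exp (#L * (m / 16)) := by
    have a1 : 64 * (m : ℝ) ^ 2 ≤ (64 * m ^ 2) ^ m := le_self_pow₀ (by nlinarith) (by omega)
    have a2 : (64 * (m : ℝ) ^ 2) ^ m * (2 * (2 ^ 35 * m ^ 6) ^ 2) ^ m ≤ exp (#L / 32) ^ m := by
      rw [← mul_pow]
      refine pow_le_pow_left₀ (by positivity) (le_trans (le_of_eq ?_) hr) m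
      rw [hmr]; ring
    have a3 : (4 * (T : ℝ)) ^ (#L * T) ≤ exp (2 * T) ^ (#L * T) := by
      refine pow_le_pow_left₀ (by positivity) ?_ _
      have := add_one_le_exp (T : ℝ)
      rw [two_mul, exp_add]
      nlinarith [sq_nonneg ((T : ℝ) - 1), Nat.cast_nonneg (α := ℝ) T]
    refine (mul_le_mul ((mul_le_mul_of_nonneg_right a1 (by positivity)).trans a2) a3
      (by positivity) (by positivity)).trans (le_of_eq ?_)
    rw [← exp_nat_mul, ← exp_nat_mul, ← exp_add, Nat.cast_mul, ← hmr]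
    exact congrArg _ (by ring)
  refine ⟨16 * T * m, 2 ^ (T + 2 * m + 1), Nat.mul_pos (by omega) (by omega), by positivity, ?_⟩
  filter_upwards [ev_root (u := 440 * m + 21) (by omega) m (6 * (34 * m) ^ m) (by positivity),
    ev_log 2 (320 * m), ev_pi,
    (tendsto_log_atTop.comp tendsto_natCast_atTop_atTop).eventually_ge_atTop
      (max 1 (4 * (∏ l ∈ L, l : ℕ) * exp #L))] with Y ⟨z, z2, z3, z4, z5⟩ e1 e2 e3
  have l1 : 1 ≤ log (Y : ℝ) := (le_max_left _ _).trans e3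
  have l2 : 4 * (∏ l ∈ L, l : ℕ) * exp #L ≤ log (Y : ℝ) := (le_max_right _ _).trans e3
  clear e3 hr hmr
  generalize log (Y : ℝ) = l at *
  have ml : 4 * l ≤ m * l := mul_le_mul_of_nonneg_right m4 (by linarith)
  have ml' : (m : ℝ) ≤ m * l := le_mul_of_one_le_right (by linarith) l1
  obtain ⟨H, H1, H2⟩ : ∃ H : ℕ, 16 * m * l ≤ H ∧ (H : ℝ) ≤ 17 * m * l :=
    ⟨⌈16 * m * l⌉₊, Nat.le_ceil _, by
      have := Nat.ceil_lt_add_one (show 0 ≤ 16 * m * l by positivity)
      linarith⟩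
  have z1 : (2 : ℝ) ≤ z := by exact_mod_cast z2
  have lz := log_pos (show (1 : ℝ) < z by linarith)
  have hA : ((2 * H : ℕ) : ℝ) * exp (-∑ p ∈ Nat.primesLE z with 4 * m ^ 2 < p, (1 : ℝ) / p) ≤
      2 ^ 35 * m ^ 6 := by
    have a1 := exp_inv_le (w := 4 * m ^ 2) (z := z) (by nlinarith)
    generalize hV : exp (-∑ p ∈ Nat.primesLE z with 4 * m ^ 2 < p, (1 : ℝ) / p) = V at a1
    have V0 : 0 ≤ V := hV ▸ (exp_pos _).le
    have a2 : exp 9 ≤ 3 ^ 9 := by
      rw [show (9 : ℝ) = (9 : ℕ) * 1 by norm_num, exp_nat_mul]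
      exact pow_le_pow_left₀ (exp_pos _).le (by linarith [exp_one_lt_d9]) _
    have a3 : l ≤ 922 * m * log z := by
      push_cast at z4
      nlinarith [mul_le_mul_of_nonneg_right m4 lz.le]
    have a4 : V * log z ≤ 2 * 3 ^ 9 * (16 * m ^ 4) := by
      push_cast at a1
      have := mul_le_mul_of_nonneg_right a2 (show (0 : ℝ) ≤ 16 * m ^ 4 by positivity)
      nlinarith
    have a5 : ((2 * H : ℕ) : ℝ) ≤ 34 * m * (922 * m * log z) := by
      have := mul_le_mul_of_nonneg_left a3 (show (0 : ℝ) ≤ 34 * m by positivity)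
      push_cast; linarith
    have a6 := mul_le_mul_of_nonneg_right a5 V0
    have a7 := mul_le_mul_of_nonneg_left a4 (show (0 : ℝ) ≤ 34 * 922 * m ^ 2 by positivity)
    have a8 : (0 : ℝ) ≤ m ^ 6 := by positivity
    nlinarith
  have H0 : 1 ≤ 2 * H := by
    have : (1 : ℝ) ≤ (2 * H : ℕ) := by push_cast; linarith
    exact_mod_cast this
  have s1 := sum_tup (Y := Y) hL hm (by omega) (by omega : 1 ≤ z)
    (l2.trans (show l ≤ ((2 * H : ℕ) : ℝ) by push_cast; linarith)) H0 (by positivity) hA hpar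
  have y1 : 320 * m * l ≤ (Y : ℝ) / l := by rw [le_div_iff₀ (by linarith)]; linarith
  have y2 : (Y : ℝ) / l ≤ Y := div_le_self (Nat.cast_nonneg _) l1
  have s2 : ((2 * H : ℕ) : ℝ) ^ m * (z + 1 + 4 * (z ^ (220 * m + 10) : ℕ) ^ 2) ≤ Y := by
    have a1 : ((2 * H : ℕ) : ℝ) ^ m ≤ (34 * m) ^ m * l ^ m := by
      rw [← mul_pow]
      exact pow_le_pow_left₀ (Nat.cast_nonneg _) (by push_cast; linarith) _
    have a2 : z * (z + 1 + 4 * (z ^ (220 * m + 10)) ^ 2) ≤ 6 * Y := by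
      have b1 : z * (z ^ (220 * m + 10)) ^ 2 = z ^ (440 * m + 21) := by ring
      have b2 : z ^ 2 ≤ z ^ (440 * m + 21) := Nat.pow_le_pow_right (by omega) (by omega)
      nlinarith
    have a3 := (Nat.cast_le (α := ℝ)).2 a2
    simp only [Nat.cast_mul, Nat.cast_add, Nat.cast_one, Nat.cast_ofNat,
      Nat.cast_pow _ 2] at a3
    have a4 := mul_le_mul_of_nonneg_right (show 6 * ((2 * H : ℕ) : ℝ) ^ m ≤ z by linarith)
      (show (0 : ℝ) ≤ z + 1 + 4 * (z ^ (220 * m + 10) : ℕ) ^ 2 by positivity)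
    linarith
  obtain ⟨n, hn⟩ : ∃ n, n = Nat.primeCounting Y - 2 * m := ⟨_, rfl⟩
  have s3 := (Nat.cast_le (α := ℝ)).2 (good_le (H := H) (by omega : 0 < m) hL
    (show n ≤ Nat.primeCounting Y by omega))
  have s4 := (Nat.cast_le (α := ℝ)).2 (tele q_mono.monotone (2 * m) H n Y fun j hj =>
    Nat.lt_succ_iff.1 (q_lt_iff.2 (show _ < Nat.primeCounting Y by omega)))
  have s5 := (Nat.cast_le (α := ℝ)).2 (card_not_ch (by omega : 0 < 2 * m) T Y)
  have s6 : Nat.primeCounting Y ≤ 2 * m + (H + 4 * T) +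
      #{j ∈ range (Nat.primeCounting Y) | ¬ Ch (2 * m) T j} +
      #{j ∈ range n | q j + H ≤ q (j + 2 * m)} +
      #{j ∈ range n | Ch (2 * m) T j ∧ q (j + 2 * m) < q j + H ∧ H + 4 * T < q j} := by
    have a1 : range n ⊆ range (H + 4 * T) ∪
        {j ∈ range (Nat.primeCounting Y) | ¬ Ch (2 * m) T j} ∪
        {j ∈ range n | q j + H ≤ q (j + 2 * m)} ∪
        {j ∈ range n | Ch (2 * m) T j ∧ q (j + 2 * m) < q j + H ∧ H + 4 * T < q j} := fun j hj => by
      have := le_q j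
      simp only [mem_union, mem_filter, mem_range] at hj ⊢
      by_cases c : Ch (2 * m) T j
      · simp only [c, not_true, and_false, or_false, true_and]; omega
      · exact Or.inl (Or.inl (Or.inr ⟨by omega, c⟩))
    have a2 := (card_le_card a1).trans ((card_union_le _ _).trans (Nat.add_le_add_right
      ((card_union_le _ _).trans (Nat.add_le_add_right (card_union_le _ _) _)) _))
    rw [card_range, card_range] at a2
    omega
  have s7 := (Nat.cast_le (α := ℝ)).2 s6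
  simp only [Nat.cast_add, Nat.cast_mul, Nat.cast_ofNat, Nat.cast_one] at s3 s4 s5 s7 ⊢
  generalize (#{j ∈ range (Nat.primeCounting Y) | ¬ Ch (2 * m) T j} : ℝ) = x1 at s5 s7
  have x20 := Nat.cast_nonneg (α := ℝ) #{j ∈ range n | q j + H ≤ q (j + 2 * m)}
  generalize (#{j ∈ range n | q j + H ≤ q (j + 2 * m)} : ℝ) = x2 at s4 s7 x20
  have x30 := Nat.cast_nonneg (α := ℝ)
    #{j ∈ range n | Ch (2 * m) T j ∧ q (j + 2 * m) < q j + H ∧ H + 4 * T < q j}
  generalize (#{j ∈ range n | Ch (2 * m) T j ∧ q (j + 2 * m) < q j + H ∧ H + 4 * T < q j} : ℝ)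
    = x3 at s3 s7 x30
  have t2 : 8 * l * x2 ≤ Y := by
    have := mul_le_mul_of_nonneg_right H1 x20
    refine le_of_mul_le_mul_left ?_ (show (0 : ℝ) < 2 * m by linarith)
    linarith
  have t3 : 16 * l * x3 ≤ Y := by
    have a1 := mul_le_mul_of_nonneg_right H1 x30
    have a2 := mul_le_mul_of_nonneg_right ml x30
    have a3 := s3.trans s1
    linarith
  have t4 : 16 * l * (2 * m + (H + 4 * T)) ≤ Y := by
    have := mul_le_mul_of_nonneg_left (show 2 * (m : ℝ) + (H + 4 * T) ≤ 20 * m * l by linarith)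
      (show 0 ≤ 16 * l by linarith)
    linarith
  have t5 := mul_le_mul_of_nonneg_left s7 (show 0 ≤ l by linarith)
  have t6 := mul_le_mul_of_nonneg_left s5 (show 0 ≤ l by linarith)
  linarith

theorem cmp_le (X : ℕ) : cmp X ≤ #{x ∈ range (X + 1) | ∃ k ∈ range x, ∃ n ∈ range x, 2 ≤ k ∧
    k < n ∧ x = k * n ∧ (k * n + Nat.primeCounting (k * n)).Prime} + (X.sqrt + 1) := by
  rw [← card_range (X.sqrt + 1)]
  refine le_trans (card_le_card fun x hx => ?_) ((card_union_le _ _).trans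
    (Nat.add_le_add_left (card_image_le (f := fun k => k * k)) _))
  obtain ⟨h1, h2, h3⟩ := mem_filter.1 hx
  have h4 : 2 ≤ x := by
    by_contra c
    obtain rfl | rfl : x = 0 ∨ x = 1 := by omega
    all_goals simp [Nat.not_prime_one, Nat.not_prime_zero] at h3
  have h5 := (Nat.minFac_prime (show x ≠ 1 by omega)).two_le
  have h6 := Nat.minFac_le_div (by omega) h2
  have h7 := Nat.mul_div_cancel' (Nat.minFac_dvd x)
  generalize x / x.minFac = n at h6 h7
  generalize x.minFac = k at h5 h6 h7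
  rcases h6.eq_or_lt with rfl | h
  · exact mem_union_right _ (mem_image.2 ⟨k, mem_range.2 (Nat.lt_succ_of_le
      (Nat.le_sqrt.2 (by have := mem_range.1 h1; omega))), h7⟩)
  · exact mem_union_left _ (mem_filter.2 ⟨h1, k, mem_range.2 (by nlinarith), n,
      mem_range.2 (by nlinarith), h5, h, h7.symm, h7 ▸ h3⟩)

theorem cmp_ge : ∃ c : ℝ, 0 < c ∧
    ∀ᶠ X : ℕ in atTop, c * X / log X + (X.sqrt + 1) ≤ cmp X := by
  obtain ⟨K, c, K0, c0, h⟩ := key
  have K1 : (0 : ℝ) < K := by exact_mod_cast K0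
  have c1 : (0 : ℝ) < c := by exact_mod_cast c0
  refine ⟨1 / (4 * K * c), by positivity, ?_⟩
  have h1 := tendsto_natCast_atTop_atTop.eventually ((isLittleO_log_rpow_atTop one_half_pos).bound
    (show (0 : ℝ) < 1 / (12 * K * c) by positivity))
  filter_upwards [(Nat.tendsto_div_const_atTop c0.ne').eventually h, h1,
    eventually_ge_atTop (c + 1)] with X h2 h3 h4
  have X1 : (1 : ℝ) < X := by exact_mod_cast (show 1 < X by omega)
  have l0 := log_pos X1
  have a1 : (cmp (c * (X / c)) : ℝ) ≤ cmp X := Nat.cast_le.2 (cmp_mono (Nat.mul_div_le X c))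
  have a0 : 1 ≤ X / c := (Nat.le_div_iff_mul_le c0).2 (by omega)
  have a2 : log ((X / c : ℕ) : ℝ) ≤ log X :=
    log_le_log (by exact_mod_cast a0) (Nat.cast_le.2 (Nat.div_le_self X c))
  have a3 : (X : ℝ) ≤ 2 * c * (X / c : ℕ) := by
    have := Nat.lt_mul_div_succ X c0
    exact_mod_cast (show X ≤ 2 * c * (X / c) by nlinarith)
  have a4 : ((X / c : ℕ) : ℝ) ≤ K * log X * (cmp X + 1) :=
    h2.trans (mul_le_mul (mul_le_mul_of_nonneg_left a2 K1.le) (by linarith) (by positivity)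
      (by positivity))
  have a5 : 2 * (1 / (4 * K * c) * X / log X) ≤ cmp X + 1 := by
    rw [← mul_div_assoc, div_le_iff₀ l0, show 2 * (1 / (4 * (K : ℝ) * c) * X) = X / (2 * c * K) by
      field_simp; norm_num, div_le_iff₀ (by positivity)]
    nlinarith [mul_le_mul_of_nonneg_left a4 (show (0 : ℝ) ≤ 2 * c by positivity)]
  have a6 : (X.sqrt : ℝ) + 2 ≤ 1 / (4 * K * c) * X / log X := by
    rw [Real.norm_of_nonneg l0.le, Real.norm_of_nonneg (by positivity), ← sqrt_eq_rpow] at h3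
    have b1 : (X.sqrt : ℝ) ≤ √X := Real.nat_sqrt_le_real_sqrt
    have b2 : 1 ≤ √(X : ℝ) := one_le_sqrt.2 X1.le
    have b3 : √(X : ℝ) * √X = X := mul_self_sqrt (by linarith)
    have b4 := mul_le_mul (show (X.sqrt : ℝ) + 2 ≤ 3 * √X by linarith) h3 l0.le (by positivity)
    rw [le_div_iff₀ l0]
    refine b4.trans (le_of_eq ?_)
    rw [mul_mul_mul_comm, b3]
    field_simp; norm_num
  linarith

end Pool.Agent.Lib.MP_7f19fc_nt
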