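import Pool.Agent.Lib.MP_7f19fc_nt.Sv

/-! Averages over patterns and the count of patterns that avoid a Kakeya set. -/

set_option autoImplicit false

namespace Pool.Agent.Lib.MP_7f19fc_nt

open Finset Real Pool.Agent.Lib.MP_488d93_nt

/-- All patterns with entries below `D`. -/
def box (m D : ℕ) : Finset (Fin m → ℕ) := Fintype.piFinset fun _ => range D

theorem card_box (m D : ℕ) : #(box m D) = D ^ m := by simp [box]

theorem sum_update {m : ℕ} (D : ℕ) (i : Fin m) (φ : (Fin m → ℕ) → ℝ) :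
    D * ∑ h ∈ box m D, φ h = ∑ h ∈ box m D, ∑ b ∈ range D, φ (Function.update h i b) := by
  have e : (D : ℝ) * ∑ h ∈ box m D, φ h = ∑ h ∈ box m D, ∑ _b ∈ range D, φ h := by
    simp [mul_sum]
  have hm : ∀ x ∈ box m D ×ˢ range D, (Function.update x.1 i x.2, x.1 i) ∈ box m D ×ˢ range D :=
    fun x hx => by
      obtain ⟨h1, h2⟩ := mem_product.1 hx
      have h3 := Fintype.mem_piFinset.1 h1
      refine mem_product.2 ⟨Fintype.mem_piFinset.2 fun k => ?_, h3 i⟩
      rcases eq_or_ne k i with rfl | c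
      · simpa using h2
      · simpa [Function.update_of_ne c] using h3 k
  rw [e, ← sum_product', ← sum_product']
  exact sum_nbij' (fun x => (Function.update x.1 i x.2, x.1 i))
    (fun x => (Function.update x.1 i x.2, x.1 i)) hm hm (fun x _ => by simp) (fun x _ => by simp)
    fun x _ => by simp

/-- A weight on pairs of entries. -/
noncomputable def wg (w : ℕ) (P : Finset ℕ) (a b : ℕ) : ℝ :=
  if a < b then ∏ p ∈ P with p ∣ b - a, (1 + (w : ℝ) / p) else 0

theorem wg_nonneg (w : ℕ) (P : Finset ℕ) (a b : ℕ) : 0 ≤ wg w P a b := by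
  unfold wg; split_ifs
  exacts [prod_nonneg fun _ _ => by positivity, le_rfl]

theorem sum_wg {w : ℕ} (hw : 1 ≤ w) {P : Finset ℕ} (hP : ∀ p ∈ P, p.Prime ∧ w < p) (a D : ℕ) :
    ∑ b ∈ range D, wg w P a b ≤ 3 * D := by
  have h1 := prod_avg (Icc 1 D) P (fun h p => p ∣ h) (fun p => w / p)
    (fun p => 1 / p) (fun _ _ => by positivity) (fun _ _ => by positivity) (Nat.cast_nonneg D)
    fun S hS => by
      have hS' : ∀ p ∈ S, p.Prime := fun p hp => (hP p (hS hp)).1
      simp only [← prod_dvd_iff hS']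
      rw [show Icc 1 D = Ioc 0 D from rfl, Nat.Ioc_filter_dvd_card_eq_div, prod_div_distrib,
        prod_const_one, ← Nat.cast_prod, mul_one_div]
      exact Nat.cast_div_le
  have w0 : (0 : ℝ) < w := by exact_mod_cast hw
  have h2 : ∑ p ∈ P, (w : ℝ) / p * (1 / p) ≤ 1 := by
    have h3 := sum_Ioc_inv_sq_le_sub (α := ℝ) (k := w) (n := max w (P.sup id)) (by omega)
      (le_max_left _ _)
    calc _ ≤ ∑ n ∈ Ioc w (max w (P.sup id)), w * ((n : ℝ) ^ 2)⁻¹ :=
          sum_le_sum_inj id (Set.injOn_id _) (fun p hp => mem_Ioc.2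
            ⟨(hP p hp).2, le_max_of_le_right (le_sup (f := id) hp)⟩)
            (fun p _ => le_of_eq (by simp only [id]; ring)) fun _ _ => by positivity
      _ ≤ w * (w : ℝ)⁻¹ := by
          rw [← mul_sum]
          exact mul_le_mul_of_nonneg_left (h3.trans (sub_le_self _ (by positivity))) w0.le
      _ = 1 := mul_inv_cancel₀ w0.ne'
  have h4 : exp (∑ p ∈ P, (w : ℝ) / p * (1 / p)) ≤ 3 :=
    (exp_le_exp.2 h2).trans (by linarith [exp_one_lt_d9])
  unfold wg
  rw [← sum_filter]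
  refine (sum_le_sum_inj (g := fun h => ∏ p ∈ P with p ∣ h, (1 + (w : ℝ) / p)) (fun b => b - a)
    (fun b hb c hc e => ?_) (fun b hb => ?_) (fun _ _ => le_rfl)
    fun _ _ => prod_nonneg fun _ _ => by positivity).trans (h1.trans ?_)
  · have := (mem_filter.1 hb).2
    have := (mem_filter.1 hc).2
    simp only at e; omega
  · have := (mem_filter.1 hb).2
    have := mem_range.1 (mem_filter.1 hb).1
    exact mem_Icc.2 ⟨by omega, by omega⟩
  · rw [mul_comm]; exact mul_le_mul_of_nonneg_right h4 (Nat.cast_nonneg _)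

theorem exp_col_le {m : ℕ} {P : Finset ℕ} (hP : ∀ p ∈ P, p.Prime ∧ 4 * m ^ 2 < p)
    {h : Fin m → ℕ} (hh : StrictMono h) : exp (∑ p ∈ P, (col univ h p : ℝ) / p) ^ 2 ≤
      1 + ∑ x ∈ (univ ×ˢ univ : Finset (Fin m × Fin m)) with x.2 < x.1,
        wg (4 * m ^ 2) P (h x.2) (h x.1) := by
  set X := (univ ×ˢ univ : Finset (Fin m × Fin m)).filter fun x => x.2 < x.1 with hX
  let g : Fin m × Fin m → ℝ := fun x => ∑ p ∈ P with p ∣ h x.1 - h x.2, (1 : ℝ) / p
  have e : ∑ p ∈ P, (col univ h p : ℝ) / p = ∑ x ∈ X, g x := by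
    simp only [g, sum_filter (s := P)]
    rw [sum_comm]
    refine sum_congr rfl fun p _ => ?_
    rw [← sum_filter, sum_const, nsmul_eq_mul, mul_one_div, hX, filter_filter, col]
    refine congrArg (fun t : Finset (Fin m × Fin m) => (#t : ℝ) / p)
      (filter_congr fun x _ => and_congr_right fun hx => ?_)
    rw [Nat.ModEq.comm, Nat.modEq_iff_dvd' (hh hx).le]
  have s0 := sum_nonneg fun x (_ : x ∈ X) => wg_nonneg (4 * m ^ 2) P (h x.2) (h x.1)
  rw [e]
  rcases X.eq_empty_or_nonempty with c | c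
  · rw [c]; simp
  obtain ⟨x, hx, hm⟩ := exists_max_image X g c
  have h1 : ∑ x ∈ X, g x ≤ m ^ 2 * g x := by
    refine (sum_le_card_nsmul _ _ _ hm).trans ?_
    rw [nsmul_eq_mul]
    refine mul_le_mul_of_nonneg_right ?_ (sum_nonneg fun _ _ => by positivity)
    exact_mod_cast (card_filter_le _ _).trans (by simp [sq])
  have h2 : exp (m ^ 2 * g x) ^ 2 ≤ wg (4 * m ^ 2) P (h x.2) (h x.1) := by
    rw [wg, if_pos (hh (mem_filter.1 hx).2), mul_sum, exp_sum, ← prod_pow]
    refine prod_le_prod (fun _ _ => sq_nonneg _) fun p hp => ?_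
    have h3 : 4 * (m : ℝ) ^ 2 < p := by exact_mod_cast (hP p (mem_filter.1 hp).1).2
    have h4 : (0 : ℝ) < p := lt_of_le_of_lt (by positivity) h3
    have h5 : 2 * ((m : ℝ) ^ 2 * (1 / p)) ≤ 1 := by
      rw [mul_one_div, ← mul_div_assoc, div_le_one h4]; nlinarith [sq_nonneg (m : ℝ)]
    have h6 : 0 ≤ 2 * ((m : ℝ) ^ 2 * (1 / p)) := by positivity
    have h7 := abs_exp_sub_one_le (x := 2 * ((m : ℝ) ^ 2 * (1 / p))) (by rwa [abs_of_nonneg h6])
    rw [abs_of_nonneg h6] at h7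
    rw [← exp_nat_mul]
    push_cast
    have h8 : 4 * (m : ℝ) ^ 2 / p = 2 * (2 * ((m : ℝ) ^ 2 * (1 / p))) := by ring
    linarith [le_abs_self (exp (2 * ((m : ℝ) ^ 2 * (1 / p))) - 1)]
  have h3 := single_le_sum (fun x (_ : x ∈ X) => wg_nonneg (4 * m ^ 2) P (h x.2) (h x.1)) hx
  have h4 := pow_le_pow_left₀ (exp_pos _).le (exp_le_exp.2 h1) 2
  linarith

theorem sum_exp_col {m D : ℕ} (hm : 1 ≤ m) (hD : 1 ≤ D) {P : Finset ℕ}
    (hP : ∀ p ∈ P, p.Prime ∧ 4 * m ^ 2 < p) :
    ∑ h ∈ box m D with StrictMono h, exp (∑ p ∈ P, (col univ h p : ℝ) / p) ^ 2 ≤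
      4 * m ^ 2 * D ^ m := by
  have D0 : (0 : ℝ) < D := by exact_mod_cast hD
  have m1 : (1 : ℝ) ≤ m ^ 2 := one_le_pow₀ (by exact_mod_cast hm)
  have h1 : ∀ x ∈ (univ ×ˢ univ : Finset (Fin m × Fin m)).filter fun x => x.2 < x.1,
      ∑ h ∈ box m D, wg (4 * m ^ 2) P (h x.2) (h x.1) ≤ 3 * D ^ m := fun x hx => by
    refine le_of_mul_le_mul_left ?_ D0
    rw [sum_update D x.1]
    refine (sum_le_card_nsmul _ _ (3 * D : ℝ) fun h _ => ?_).trans (le_of_eq ?_)
    · simp only [Function.update_self, Function.update_of_ne (mem_filter.1 hx).2.ne]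
      exact sum_wg (by nlinarith) hP _ _
    · rw [card_box, nsmul_eq_mul]; push_cast; ring
  refine (sum_le_sum fun h hh => exp_col_le hP (mem_filter.1 hh).2).trans
    ((sum_le_sum_of_subset_of_nonneg (filter_subset _ _) fun h _ _ => add_nonneg zero_le_one
      (sum_nonneg fun _ _ => wg_nonneg _ _ _ _)).trans ?_)
  rw [sum_add_distrib, sum_comm, sum_const, card_box, nsmul_eq_mul, mul_one]
  have h2 := sum_le_card_nsmul _ _ _ h1
  have h3 : (#((univ ×ˢ univ : Finset (Fin m × Fin m)).filter fun x => x.2 < x.1) : ℝ) ≤ m ^ 2 := by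
    exact_mod_cast (card_filter_le _ _).trans (by simp [sq])
  rw [nsmul_eq_mul] at h2
  have h4 : (0 : ℝ) < D ^ m := by positivity
  push_cast
  nlinarith

theorem few {m l u u' : ℕ} (hl : l.Prime) (h1 : u' < u) (h2 : 2 * u < l) (c c' : ℕ) :
    #{i : Fin m | c + 2 * u * i ≡ c' + 2 * u' * i [MOD l]} ≤ m / l + 1 := by
  rw [← card_range (m / l + 1)]
  refine card_le_card_of_injOn (fun i => i / l) (fun i _ => ?_) fun i hi k hk e => ?_
  · exact mem_coe.2 (mem_range.2 (Nat.lt_succ_of_le (Nat.div_le_div_right i.2.le)))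
  have h3 := Nat.modEq_iff_dvd.1 (mem_filter.1 hi).2
  have h4 := Nat.modEq_iff_dvd.1 (mem_filter.1 hk).2
  have h5 : (l : ℤ) ∣ ((2 * (u - u') : ℕ) : ℤ) * ((k : ℕ) - (i : ℕ)) := by
    have := dvd_sub h3 h4
    rw [Nat.cast_mul, Nat.cast_sub h1.le]
    push_cast at this ⊢
    rwa [show (c' : ℤ) + 2 * u' * (i : ℕ) - (c + 2 * u * (i : ℕ)) - (c' + 2 * u' * (k : ℕ) -
      (c + 2 * u * (k : ℕ))) = 2 * (u - u') * ((k : ℕ) - (i : ℕ)) by ring] at this
  rcases (Nat.prime_iff_prime_int.1 hl).dvd_or_dvd h5 with h | h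
  · have := Nat.le_of_dvd (by omega) (Int.natCast_dvd_natCast.1 h)
    omega
  · have h6 : (i : ℕ) % l = k % l := Nat.modEq_iff_dvd.2 h
    have h7 : (i : ℕ) / l = k / l := e
    exact Fin.ext (by rw [← Nat.div_add_mod i l, ← Nat.div_add_mod k l, h6, h7])

theorem sum_col {m T l : ℕ} (hl : l.Prime) (h1 : 2 * T < l) (h2 : l ≤ 4 * T) (hm : 4 * T ≤ m)
    (c : Fin T → ℕ) : (m : ℝ) / 16 ≤
      ∑ i : Fin m, ((T : ℝ) - col univ (fun u : Fin T => c u + 2 * u * i) l) / l := by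
  have h3 : ∑ i : Fin m, col univ (fun u : Fin T => c u + 2 * u * i) l ≤ T ^ 2 * (m / l + 1) := by
    simp only [col, card_filter]
    rw [sum_comm]
    refine (sum_le_card_nsmul _ _ (m / l + 1) fun x _ => ?_).trans (by simp [sq])
    by_cases hx : x.2 < x.1
    · simp only [hx, true_and]
      rw [← card_filter]
      exact few hl hx (by have := x.1.2; omega) _ _
    · simp [hx]
  have h4 : 2 * T * (m / l) ≤ m :=
    (Nat.mul_le_mul_right _ h1.le).trans (Nat.mul_div_le m l)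
  have h5 : l * m + 16 * ∑ i : Fin m, col univ (fun u : Fin T => c u + 2 * u * i) l ≤
      16 * (m * T) := by nlinarith [Nat.mul_le_mul_left T h4, Nat.mul_le_mul_left T hm,
        Nat.mul_le_mul_right m h2]
  have l0 : (0 : ℝ) < l := by exact_mod_cast hl.pos
  rw [← sum_div, sum_sub_distrib, le_div_iff₀ l0, sum_const, card_univ, Fintype.card_fin,
    nsmul_eq_mul, ← Nat.cast_sum]
  have h6 := (Nat.cast_le (α := ℝ)).2 h5
  rw [Nat.cast_add, Nat.cast_mul, Nat.cast_mul, Nat.cast_mul, Nat.cast_mul] at h6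
  norm_num at h6 ⊢
  linarith

/-- Patterns all of whose sheared copies miss a residue class. -/
def Kk {m : ℕ} (T : ℕ) (L : Finset ℕ) (h : Fin m → ℕ) : Prop :=
  ∀ l ∈ L, ∀ u < T, ∃ C, ∀ i, ¬ l ∣ h i + (C + 2 * u * i)

open Classical in
theorem card_Kk {m T D : ℕ} {L : Finset ℕ} (hL : ∀ l ∈ L, l.Prime ∧ 2 * T < l ∧ l ≤ 4 * T)
    (hm : 4 * T ≤ m) (hD : 4 * (∏ l ∈ L, l : ℕ) * exp #L ≤ D) :
    (#{h ∈ box m D | Kk T L h} : ℝ) ≤
      (4 * T) ^ (#L * T) * ((2 * D) ^ m * exp (-(#L * (m / 16)))) := by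
  let ex : (L × Fin T → ℕ) → ℕ → Fin T → ℕ := fun c l u => if h : l ∈ L then c (⟨l, h⟩, u) else 0
  let U : (L × Fin T → ℕ) → Fin m → ℕ → Fin T → ℕ := fun c i l u => ex c l u + 2 * u * i
  let A : (L × Fin T → ℕ) → Fin m → Finset ℕ := fun c i =>
    {a ∈ range D | ∀ l ∈ L, ¬ ∃ u ∈ univ, l ∣ a + U c i l u}
  have h1 : {h ∈ box m D | Kk T L h} ⊆ (Fintype.piFinset fun _ : L × Fin T => range (4 * T)).biUnion
      fun c => Fintype.piFinset (A c) := fun h hh => by
    obtain ⟨h2, h3⟩ := mem_filter.1 hh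
    choose C hC using fun x : L × Fin T => h3 x.1 x.1.2 x.2 x.2.2
    refine mem_biUnion.2 ⟨fun x => C x % x.1, Fintype.mem_piFinset.2 fun x => mem_range.2
      ((Nat.mod_lt _ (hL _ x.1.2).1.pos).trans_le (hL _ x.1.2).2.2),
      Fintype.mem_piFinset.2 fun i => mem_filter.2 ⟨Fintype.mem_piFinset.1 h2 i, ?_⟩⟩
    rintro l hl ⟨u, -, hu⟩
    refine hC (⟨l, hl⟩, u) i ?_
    simp only [U, ex, dif_pos hl] at hu
    exact ((Nat.ModEq.add_left _ ((Nat.mod_modEq _ l).add_right _)).dvd_iff dvd_rfl).1 hu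
  have h2 : ∀ c i, (#(A c i) : ℝ) ≤
      2 * D * exp (-∑ l ∈ L, ((T : ℝ) - col univ (U c i l) l) / l) := fun c i => by
    have a1 : (#(A c i) : ℝ) ≤ ∑ a ∈ Ico 0 D, ∏ l ∈ L, (1 - hit univ (U c i l) l a) := by
      rw [← range_eq_Ico, card_filter, Nat.cast_sum]
      refine sum_le_sum fun a _ => ?_
      split_ifs with g
      · rw [prod_eq_one fun l hl => by rw [hit, if_neg (g l hl), sub_zero], Nat.cast_one]
      · rw [Nat.cast_zero]
        exact prod_nonneg fun l _ => by linarith [(hit_mem univ (U c i l) l a).2]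
    have a2 := crt_mean L (fun l hl => (hL l hl).1) (fun l a => 1 - hit univ (U c i l) l a)
      (fun l a => by rw [hit_mod]) one_pos (fun a => by
        rw [abs_prod]
        exact prod_le_one (fun _ _ => abs_nonneg _) fun l _ => abs_le.2
          ⟨by linarith [(hit_mem univ (U c i l) l a).2],
            by linarith [(hit_mem univ (U c i l) l a).1]⟩) (Nat.zero_le D)
    have a3 : ∏ l ∈ L, (∑ n ∈ range l, (1 - hit univ (U c i l) l n)) / l ≤
        exp (-∑ l ∈ L, ((T : ℝ) - col univ (U c i l) l) / l) := by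
      rw [← sum_neg_distrib, exp_sum]
      refine prod_le_prod (fun l _ => div_nonneg (sum_nonneg fun n _ => by
        linarith [(hit_mem univ (U c i l) l n).2]) (Nat.cast_nonneg _)) fun l hl => ?_
      have l0 : (0 : ℝ) < l := by exact_mod_cast (hL l hl).1.pos
      have b1 := (hit_sum univ (U c i l) (hL l hl).1.pos).1
      rw [card_univ, Fintype.card_fin] at b1
      have b2 := div_le_div_of_nonneg_right b1 l0.le
      refine le_trans ?_ (add_one_le_exp _)
      rw [sum_sub_distrib, sum_const, card_range, nsmul_eq_mul, mul_one, sub_div, div_self l0.ne']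
      linarith
    have a4 : exp (-(#L : ℝ)) ≤ exp (-∑ l ∈ L, ((T : ℝ) - col univ (U c i l) l) / l) := by
      rw [exp_le_exp, neg_le_neg_iff]
      refine (sum_le_card_nsmul _ _ (1 : ℝ) fun l hl => ?_).trans (by simp)
      have l1 : 2 * (T : ℝ) < l := by exact_mod_cast (hL l hl).2.1
      have t0 := Nat.cast_nonneg (α := ℝ) T
      rw [div_le_one (by linarith)]
      linarith [Nat.cast_nonneg (α := ℝ) (col univ (U c i l) l)]
    have a5 : 4 * ((∏ l ∈ L, l : ℕ) : ℝ) ≤ D * exp (-(#L : ℝ)) := by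
      rwa [exp_neg, ← div_eq_mul_inv, le_div_iff₀ (exp_pos _)]
    have a6 := (abs_le.1 a2).2
    rw [Nat.cast_zero, sub_zero] at a6
    have a7 := mul_le_mul_of_nonneg_left a3 (Nat.cast_nonneg (α := ℝ) D)
    have a8 := mul_le_mul_of_nonneg_left a4 (Nat.cast_nonneg (α := ℝ) D)
    linarith
  have h3 : ∀ c, (#(Fintype.piFinset (A c)) : ℝ) ≤ (2 * D) ^ m * exp (-(#L * (m / 16))) :=
    fun c => by
      rw [Fintype.card_piFinset, Nat.cast_prod]
      refine (prod_le_prod (fun _ _ => Nat.cast_nonneg _) fun i _ => h2 c i).trans ?_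
      rw [prod_mul_distrib, prod_const, card_univ, Fintype.card_fin, ← exp_sum]
      refine mul_le_mul_of_nonneg_left (exp_le_exp.2 ?_) (by positivity)
      rw [sum_neg_distrib, neg_le_neg_iff, sum_comm, ← nsmul_eq_mul]
      exact card_nsmul_le_sum _ _ _ fun l hl =>
        sum_col (hL l hl).1 (hL l hl).2.1 (hL l hl).2.2 hm (ex c l)
  refine (Nat.cast_le.2 ((card_le_card h1).trans card_biUnion_le)).trans ?_
  rw [Nat.cast_sum]
  refine (sum_le_card_nsmul _ _ _ fun c _ => h3 c).trans (le_of_eq ?_)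
  simp

end Pool.Agent.Lib.MP_7f19fc_nt
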