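import Pool.Agent.Lib.MP_488d93_nt.Brun2

/-! An upper bound sieve of dimension `m` and averages over patterns. -/

set_option autoImplicit false

namespace Pool.Agent.Lib.MP_7f19fc_nt

open Finset Real Pool.Agent.Lib.MP_488d93_nt

theorem bh (m z N : ℕ) (hz : 1 ≤ z) {P : Finset ℕ} (hP : ∀ p ∈ P, p.Prime ∧ p ≤ z)
    (f : ℕ → ℕ → ℝ) (hf : ∀ p n, f p (n % p) = f p n) (hb : ∀ p n, 0 ≤ f p n ∧ f p n ≤ 1)
    (hx : ∀ p ∈ P, (∑ n ∈ range p, f p n) / p ≤ 2 / 3 ∧ (∑ n ∈ range p, f p n) / p ≤ m / p) :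
    ∑ n ∈ range N, ∏ p ∈ P, (1 - f p n) ≤
      2 * N * ∏ p ∈ P, (1 - (∑ n ∈ range p, f p n) / p) + 4 * (z ^ (220 * m + 10) : ℕ) ^ 2 := by
  set t := 55 * m + 1 with ht
  set x : ℕ → ℝ := fun p => (∑ n ∈ range p, f p n) / p with hxd
  have x0 : ∀ p, 0 ≤ x p := fun p =>
    div_nonneg (sum_nonneg fun n _ => (hb p n).1) (Nat.cast_nonneg _)
  let B : ℕ → Finset ℕ := fun j => P.filter (bl z · = j)
  have fib : ∀ g : ℕ → ℝ, ∏ p ∈ P, g p = ∏ j ∈ range (z + 1), ∏ p ∈ B j, g p := fun g =>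
    (prod_fiberwise_of_maps_to (fun p _ => bl_mem z p) g).symm
  have bo : ∀ y : ℕ → ℝ, (∀ p ∈ P, 0 ≤ y p ∧ y p ≤ 1) → ∀ j, 0 ≤ ∏ p ∈ B j, (1 - y p) ∧
      ∏ p ∈ B j, (1 - y p) ≤ sy (alt (2 * (t + j))) (B j) y ∧ sy (alt (2 * (t + j))) (B j) y -
        ∏ p ∈ B j, (1 - y p) ≤ sy (el (2 * (t + j) + 1)) (B j) y := fun y hy j => by
    have := bonf (I := B j) (fun p hp => hy p (mem_filter.1 hp).1) (2 * (t + j))
    rw [pow_mul, neg_one_sq, one_pow, one_mul] at this
    exact ⟨prod_nonneg fun p hp => by linarith [(hy p (mem_filter.1 hp).1).2],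
      by linarith [this.1], this.2⟩
  have bx : ∀ j, 0 ≤ sy (alt (2 * (t + j))) (B j) x ∧
      sy (alt (2 * (t + j))) (B j) x ≤ (∏ p ∈ B j, (1 - x p)) * (1 + (1 / 2) ^ j / 4) := fun j => by
    obtain ⟨h1, h2, h3⟩ := bo x (fun p hp => ⟨x0 p, by linarith [(hx p hp).1]⟩) j
    have h4 : ∑ p ∈ B j, x p ≤ 11 * m := by
      have := block_sum hP j
      calc _ ≤ ∑ p ∈ B j, m * ((1 : ℝ) / p) := sum_le_sum fun p hp => by
            rw [mul_one_div]; exact (hx p (mem_filter.1 hp).1).2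
        _ ≤ m * 11 := by rw [← mul_sum]; exact mul_le_mul_of_nonneg_left this (Nat.cast_nonneg _)
        _ = _ := mul_comm _ _
    have h5 : exp (-(33 * m)) ≤ ∏ p ∈ B j, (1 - x p) := by
      calc _ ≤ exp (∑ p ∈ B j, -(3 * x p)) := by
            rw [exp_le_exp, sum_neg_distrib, ← mul_sum]; linarith
        _ ≤ _ := by
            rw [exp_sum]
            exact prod_le_prod (fun _ _ => (exp_pos _).le) fun p hp =>
              exp_le_one_sub (x0 p) (hx p (mem_filter.1 hp).1).1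
    have h6 : exp (55 * m) ≤ 4 ^ (55 * m) := by
      rw [show (55 * m : ℝ) = (55 * m : ℕ) * 1 by push_cast; ring, exp_nat_mul]
      exact pow_le_pow_left₀ (exp_pos _).le (by linarith [exp_one_lt_d9]) _
    have h7 : sy (el (2 * (t + j) + 1)) (B j) x ≤ exp (-(33 * m)) * ((1 / 2) ^ j / 4) := by
      refine (sy_el_le (fun p _ => x0 p) _).trans ?_
      have h8 : exp (2 * ∑ p ∈ B j, x p) ≤ exp (-(33 * m)) * 4 ^ (55 * m) := by
        refine le_trans ?_ (mul_le_mul_of_nonneg_left h6 (exp_pos _).le)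
        rw [← exp_add, exp_le_exp]; linarith
      rw [div_le_iff₀ (by positivity), mul_assoc]
      refine h8.trans (mul_le_mul_of_nonneg_left ?_ (exp_pos _).le)
      have h9 : (2 : ℝ) ^ (2 * (t + j) + 1) = 4 ^ (55 * m) * 8 * 2 ^ j * 2 ^ j := by
        rw [ht, show (4 : ℝ) = 2 ^ 2 by norm_num, ← pow_mul]; ring
      have h10 : (1 : ℝ) ≤ 2 ^ j := one_le_pow₀ one_le_two
      have h11 : (0 : ℝ) < 4 ^ (55 * m) := by positivity
      rw [h9, one_div, inv_pow]
      field_simp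
      nlinarith
    have h12 := mul_le_mul_of_nonneg_right h5 (show (0 : ℝ) ≤ (1 / 2) ^ j / 4 by positivity)
    exact ⟨h1.trans h2, by linarith⟩
  have hprod : ∏ j ∈ range (z + 1), (1 + (1 / 2 : ℝ) ^ j / 4) ≤ 2 := by
    refine (prod_le_exp_sum _ _ fun j _ => by positivity).trans ?_
    have h1 : exp (1 / 2) ≤ 2 := by
      have := exp_one_lt_d9
      have h2 : exp (1 / 2) * exp (1 / 2) = exp 1 := by rw [← exp_add]; norm_num
      nlinarith [exp_pos (1 / 2)]
    refine (exp_le_exp.2 ?_).trans h1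
    rw [← sum_div]
    linarith [sum_geometric_two_le (z + 1)]
  have up : ML (cf (fun j => alt (2 * (t + j))) z) P x ≤ 2 * ∏ p ∈ P, (1 - x p) := by
    rw [ML_cf]
    refine (prod_le_prod (fun j _ => (bx j).1) fun j _ => (bx j).2).trans ?_
    rw [prod_mul_distrib, ← fib, mul_comm]
    exact mul_le_mul_of_nonneg_right hprod (prod_nonneg fun p hp => by linarith [(hx p hp).1])
  have low : ∀ n, ∏ p ∈ P, (1 - f p n) ≤ ML (cf (fun j => alt (2 * (t + j))) z) P (f · n) :=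
    fun n => by
      rw [ML_cf, fib]
      exact prod_le_prod (fun j _ => (bo _ (fun p _ => hb p n) j).1)
        fun j _ => (bo _ (fun p _ => hb p n) j).2.1
  have mean := ML_mean (fun p hp => (hP p hp).1) (abs_cf_le (fun _ _ => abs_alt_le _ _) z)
    (fun S hS => cf_level (c := fun j => alt (2 * (t + j))) (t := t)
      (fun j n h => if_neg (by omega)) (fun p hp => hP p (hS hp)) hz) f hf
    (fun p n => abs_le.2 ⟨by linarith [(hb p n).1], (hb p n).2⟩) (Nat.zero_le N)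
  rw [show 4 * t + 6 = 220 * m + 10 by omega, ← range_eq_Ico, Nat.cast_zero, sub_zero] at mean
  have h1 := (abs_le.1 mean).2
  have h2 := mul_le_mul_of_nonneg_left up (Nat.cast_nonneg (α := ℝ) N)
  have h3 := sum_le_sum fun n (_ : n ∈ range N) => low n
  linarith

section Hit
variable {ι : Type} [LinearOrder ι]

/-- Indicator that `p` divides one of the shifted numbers. -/
def hit (s : Finset ι) (u : ι → ℕ) (p n : ℕ) : ℝ := if ∃ i ∈ s, p ∣ n + u i then 1 else 0

/-- Number of pairs of congruent shifts. -/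
def col (s : Finset ι) (u : ι → ℕ) (p : ℕ) : ℕ :=
  #{x ∈ s ×ˢ s | x.2 < x.1 ∧ u x.1 ≡ u x.2 [MOD p]}

omit [LinearOrder ι] in
theorem hit_mod (s : Finset ι) (u : ι → ℕ) (p n : ℕ) : hit s u p (n % p) = hit s u p n := by
  simp only [hit, Nat.dvd_iff_mod_eq_zero, Nat.mod_add_mod]

omit [LinearOrder ι] in
theorem hit_mem (s : Finset ι) (u : ι → ℕ) (p n : ℕ) : 0 ≤ hit s u p n ∧ hit s u p n ≤ 1 := by
  unfold hit; split_ifs <;> norm_num

theorem exists_res {p : ℕ} (hp : 0 < p) (c : ℕ) : ∃ a, a < p ∧ p ∣ a + c :=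
  ⟨(p - c % p) % p, Nat.mod_lt _ hp, by
    rw [Nat.dvd_iff_mod_eq_zero, Nat.mod_add_mod, Nat.add_mod, Nat.mod_add_mod,
      Nat.sub_add_cancel (Nat.mod_lt _ hp).le, Nat.mod_self]⟩

theorem hit_sum (s : Finset ι) (u : ι → ℕ) {p : ℕ} (hp : 0 < p) :
    (#s : ℝ) - col s u p ≤ ∑ n ∈ range p, hit s u p n ∧ ∑ n ∈ range p, hit s u p n ≤ #s := by
  choose r hr hr' using exists_res hp
  have e : ∑ n ∈ range p, hit s u p n = #{n ∈ range p | ∃ i ∈ s, p ∣ n + u i} := by
    simp only [hit, sum_boole]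
  have uq : ∀ c a, a < p → p ∣ a + c → a = r c := fun c a h1 h2 =>
    Nat.ModEq.eq_of_lt_of_lt (Nat.ModEq.add_right_cancel' c
      ((Nat.modEq_zero_iff_dvd.2 h2).trans (Nat.modEq_zero_iff_dvd.2 (hr' c)).symm)) h1 (hr c)
  rw [e]
  constructor
  · have h1 := card_filter_add_card_filter_not (s := s)
      fun i => ∃ k ∈ s, k < i ∧ u i ≡ u k [MOD p]
    have h2 : #{i ∈ s | ∃ k ∈ s, k < i ∧ u i ≡ u k [MOD p]} ≤ col s u p := by
      refine le_trans (card_le_card fun i hi => ?_) (card_image_le (f := Prod.fst))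
      obtain ⟨h1, k, h2, h3⟩ := mem_filter.1 hi
      exact mem_image.2 ⟨(i, k), mem_filter.2 ⟨mem_product.2 ⟨h1, h2⟩, h3⟩, rfl⟩
    have h3 : #{i ∈ s | ¬ ∃ k ∈ s, k < i ∧ u i ≡ u k [MOD p]} ≤
        #{n ∈ range p | ∃ i ∈ s, p ∣ n + u i} := by
      refine card_le_card_of_injOn (fun i => r (u i)) (fun i hi => ?_) fun i hi k hk e => ?_
      · exact mem_coe.2 (mem_filter.2 ⟨mem_range.2 (hr _), i, (mem_filter.1 hi).1, hr' _⟩)
      · have hi' := mem_filter.1 hi
        have hk' := mem_filter.1 hk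
        have h4 : u i ≡ u k [MOD p] := Nat.ModEq.add_left_cancel' (r (u i))
          ((Nat.modEq_zero_iff_dvd.2 (hr' _)).trans
            (Nat.modEq_zero_iff_dvd.2 (by rw [show r (u i) = r (u k) from e]; exact hr' _)).symm)
        rcases lt_trichotomy i k with h | h | h
        · exact absurd ⟨i, hi'.1, h, h4.symm⟩ hk'.2
        · exact h
        · exact absurd ⟨k, hk'.1, h, h4⟩ hi'.2
    rw [sub_le_iff_le_add]
    exact_mod_cast (show #s ≤ _ by omega)
  · refine Nat.cast_le.2 (le_trans (card_le_card fun n hn => ?_)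
      (card_image_le (f := fun i => r (u i))))
    obtain ⟨h1, i, h2, h3⟩ := mem_filter.1 hn
    exact mem_image.2 ⟨i, h2, (uq _ _ (mem_range.1 h1) h3).symm⟩

end Hit

/-- The number of prime tuples with the pattern `h`. -/
def tup {m : ℕ} (N : ℕ) (h : Fin m → ℕ) : ℕ := #{n ∈ range N | ∀ i, (n + h i).Prime}

theorem tup_le {m z : ℕ} (N : ℕ) (hz : 1 ≤ z) {P : Finset ℕ}
    (hP : ∀ p ∈ P, p.Prime ∧ p ≤ z ∧ 2 * m ≤ p) (h : Fin m → ℕ) :
    (tup N h : ℝ) ≤ z + 1 + 4 * (z ^ (220 * m + 10) : ℕ) ^ 2 +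
      2 * N * (exp (-∑ p ∈ P, (1 : ℝ) / p) ^ m * exp (∑ p ∈ P, (col univ h p : ℝ) / p)) := by
  have hs := fun p (hp : p ∈ P) => hit_sum univ h (hP p hp).1.pos
  simp only [card_univ, Fintype.card_fin] at hs
  have hx : ∀ p ∈ P, (∑ n ∈ range p, hit univ h p n) / p ≤ 2 / 3 ∧
      (∑ n ∈ range p, hit univ h p n) / p ≤ m / p := fun p hp => by
    have h1 : (0 : ℝ) < p := by exact_mod_cast (hP p hp).1.pos
    have h2 : 2 * (m : ℝ) ≤ p := by exact_mod_cast (hP p hp).2.2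
    refine ⟨?_, div_le_div_of_nonneg_right (hs p hp).2 h1.le⟩
    rw [div_le_iff₀ h1]; linarith [(hs p hp).2]
  have h1 := bh m z N hz (fun p hp => ⟨(hP p hp).1, (hP p hp).2.1⟩) (hit univ h)
    (hit_mod _ _) (hit_mem _ _) hx
  have h2 : (tup N h : ℝ) ≤ z + 1 + ∑ n ∈ range N, ∏ p ∈ P, (1 - hit univ h p n) := by
    calc (tup N h : ℝ) ≤ ∑ n ∈ range N, ((if n ∈ range (z + 1) then 1 else 0) +
          ∏ p ∈ P, (1 - hit univ h p n)) := by
          rw [tup, card_filter, Nat.cast_sum]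
          refine sum_le_sum fun n _ => ?_
          have h0 : 0 ≤ ∏ p ∈ P, (1 - hit univ h p n) :=
            prod_nonneg fun p _ => by linarith [(hit_mem univ h p n).2]
          split_ifs with c1 c2 c2 <;> push_cast <;> try linarith
          rw [zero_add, prod_eq_one fun p hp => ?_]
          rw [hit, if_neg, sub_zero]
          rintro ⟨i, -, hi⟩
          have := (Nat.prime_dvd_prime_iff_eq (hP p hp).1 (c1 i)).1 hi
          have := (hP p hp).2.1
          rw [mem_range] at c2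
          omega
      _ ≤ _ := by
          rw [sum_add_distrib, sum_ite_mem, sum_const, nsmul_eq_mul, mul_one]
          refine add_le_add ?_ le_rfl
          exact_mod_cast (card_le_card inter_subset_right).trans (card_range _).le
  have h3 : ∏ p ∈ P, (1 - (∑ n ∈ range p, hit univ h p n) / p) ≤
      exp (-∑ p ∈ P, (1 : ℝ) / p) ^ m * exp (∑ p ∈ P, (col univ h p : ℝ) / p) := by
    rw [← exp_nat_mul, ← exp_add, ← sum_neg_distrib, mul_sum, ← sum_add_distrib, exp_sum]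
    refine prod_le_prod (fun p hp => by linarith [(hx p hp).1]) fun p hp => ?_
    have h4 := div_le_div_of_nonneg_right (hs p hp).1 (Nat.cast_nonneg (α := ℝ) p)
    refine le_trans ?_ (add_one_le_exp _)
    rw [sub_div] at h4
    rw [mul_neg, mul_one_div]
    linarith
  have h4 := mul_le_mul_of_nonneg_left h3 (show (0 : ℝ) ≤ 2 * N by positivity)
  linarith

theorem exp_inv_le {w z : ℕ} (hw : 1 ≤ w) :
    exp (-∑ p ∈ Nat.primesLE z with w < p, (1 : ℝ) / p) * log z ≤ 2 * exp 9 * w ^ 2 := by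
  have h1 := log_le_rough z z
  have h2 : ∑ r ∈ Rg z z, 1 / (r : ℝ) ≤ 1 := by
    refine (sum_le_sum_of_subset_of_nonneg (t := {1}) (fun r hr => ?_)
      fun _ _ _ => by positivity).trans (by simp)
    obtain ⟨h1, -, h2⟩ := mem_filter.1 hr
    rw [mem_singleton]
    by_contra h
    have h3 := mem_Icc.1 h1
    have h4 := Nat.minFac_prime h
    have := h2 _ (Nat.mem_primeFactors.2 ⟨h4, Nat.minFac_dvd r, by omega⟩)
    have := Nat.minFac_le h3.1
    omega
  have h3 := prod_le_exp_sum (Nat.primesLE z) (fun p => 1 / (p : ℝ)) fun _ _ => by positivity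
  have h5 : 0 ≤ ∏ p ∈ Nat.primesLE z, (1 + 1 / (p : ℝ)) := prod_nonneg fun _ _ => by positivity
  have h6 := mul_le_mul_of_nonneg_left h2 h5
  have w1 : (1 : ℝ) ≤ w := by exact_mod_cast hw
  have l0 := log_nonneg w1
  have h7 := sum_inv_prime ((Nat.primesLE z).filter fun p => ¬ w < p) (l := 2 / 3) (u := log w)
    (by norm_num) l0 fun p hp => by
      have pp := (Nat.mem_primesLE.1 (mem_filter.1 hp).1).2
      have p2 : (2 : ℝ) ≤ p := by exact_mod_cast pp.two_le
      refine ⟨pp, le_trans (by linarith [log_two_gt_d9]) (log_le_log two_pos p2),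
        log_le_log (by linarith) (by exact_mod_cast not_lt.1 (mem_filter.1 hp).2)⟩
  rw [← sum_filter_add_sum_filter_not _ (w < ·), exp_add] at h3
  have h8 : exp (∑ p ∈ Nat.primesLE z with ¬ w < p, (1 : ℝ) / p) ≤ exp 9 * w ^ 2 := by
    rw [← exp_log (show (0 : ℝ) < w ^ 2 by positivity), ← exp_add, exp_le_exp, log_pow]
    push_cast; linarith
  have h9 := mul_le_mul_of_nonneg_left h8
    (exp_pos (∑ p ∈ Nat.primesLE z with w < p, (1 : ℝ) / p)).le
  rw [exp_neg, inv_mul_le_iff₀ (exp_pos _)]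
  linarith

end Pool.Agent.Lib.MP_7f19fc_nt
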