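import Pool.Agent.Lib.MP_7f19fc_nt.Pat
import Pool.Agent.Lib.MP_7f19fc_nt.Ch

/-! Windows with long chains are rare. -/

set_option autoImplicit false

namespace Pool.Agent.Lib.MP_7f19fc_nt

open Finset Real Filter Pool.Agent.Lib.MP_488d93_nt

open Classical in
theorem good_le {m T H Y n : ℕ} {L : Finset ℕ} (hm : 0 < m)
    (hL : ∀ l ∈ L, l.Prime ∧ 2 * T < l ∧ l ≤ 4 * T) (hn : n ≤ Nat.primeCounting Y) :
    H * #{j ∈ range n | Ch (2 * m) T j ∧ q (j + 2 * m) < q j + H ∧ H + 4 * T < q j} ≤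
      ∑ h ∈ box m (2 * H) with Kk T L h ∧ StrictMono h, tup (Y + 1) h := by
  unfold tup
  rw [← card_sigma, mul_comm, ← card_range H, ← card_product, card_range]
  refine card_le_card_of_injOn
    (fun x => ⟨fun i => q (x.1 + 2 * i) - q x.1 + x.2, q x.1 - x.2⟩) (fun x hx => ?_)
    fun x hx y hy e => ?_
  · obtain ⟨h1, h2⟩ := mem_product.1 hx
    obtain ⟨h3, h4, h5, h6⟩ := mem_filter.1 h1
    have h7 := mem_range.1 h2
    have h8 : q x.1 < Y + 1 := q_lt_iff.2 ((mem_range.1 h3).trans_le hn)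
    have h9 : ∀ i : Fin m, q x.1 ≤ q (x.1 + 2 * i) := fun i => q_mono.monotone (by omega)
    refine mem_coe.2 (mem_sigma.2 ⟨mem_filter.2 ⟨Fintype.mem_piFinset.2 fun i => mem_range.2 ?_,
      fun l hl u hu => ?_, fun i k hik => ?_⟩, mem_filter.2 ⟨mem_range.2 ?_, fun i => ?_⟩⟩)
    · have := q_mono (show x.1 + 2 * i < x.1 + 2 * m by have := i.2; omega)
      dsimp only; omega
    · obtain ⟨C, hC⟩ := h4.prime hu.le
      refine ⟨C + (q x.1 - x.2), fun i hi => ?_⟩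
      have g1 := h9 i
      rw [show q (x.1 + 2 * i) - q x.1 + x.2 + (C + (q x.1 - x.2) + 2 * u * i) =
        C + q (x.1 + 2 * i) + 2 * u * i by omega] at hi
      have := (Nat.prime_dvd_prime_iff_eq (hL l hl).1 (hC i i.2)).1 hi
      have := (hL l hl).2.2
      omega
    · have := q_mono (show x.1 + 2 * i < x.1 + 2 * k by have : (i : ℕ) < k := hik; omega)
      have := h9 i
      dsimp only; omega
    · dsimp only; omega
    · have := h9 i
      dsimp only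
      rw [show q x.1 - x.2 + (q (x.1 + 2 * i) - q x.1 + x.2) = q (x.1 + 2 * i) by omega]
      exact q_prime _
  · obtain ⟨e1, e2⟩ := Sigma.mk.inj_iff.1 e
    have e3 := congrFun e1 ⟨0, hm⟩
    have e4 := eq_of_heq e2
    simp only [mul_zero, add_zero, Nat.sub_self, zero_add] at e3
    have h1 := (mem_filter.1 (mem_product.1 hx).1).2.2.2
    have h2 := (mem_filter.1 (mem_product.1 hy).1).2.2.2
    have h3 := mem_range.1 (mem_product.1 hx).2
    exact Prod.ext (q_mono.injective (by omega)) e3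

open Classical in
theorem sum_tup {m T D z Y : ℕ} {L : Finset ℕ} {A : ℝ}
    (hL : ∀ l ∈ L, l.Prime ∧ 2 * T < l ∧ l ≤ 4 * T) (hm : 4 * T ≤ m) (hm1 : 1 ≤ m) (hz : 1 ≤ z)
    (hD : 4 * (∏ l ∈ L, l : ℕ) * exp #L ≤ D) (hD1 : 1 ≤ D) (A0 : 0 < A)
    (hA : D * exp (-∑ p ∈ Nat.primesLE z with 4 * m ^ 2 < p, (1 : ℝ) / p) ≤ A)
    (hpar : 64 * m ^ 2 * (2 * A ^ 2) ^ m * (4 * T) ^ (#L * T) ≤ exp (#L * (m / 16))) :
    ((∑ h ∈ box m D with Kk T L h ∧ StrictMono h, tup (Y + 1) h : ℕ) : ℝ) ≤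
      D ^ m * (z + 1 + 4 * (z ^ (220 * m + 10) : ℕ) ^ 2) + (Y + 1) := by
  set P := (Nat.primesLE z).filter (4 * m ^ 2 < ·) with hPd
  set V := exp (-∑ p ∈ P, (1 : ℝ) / p) with hV
  set R : ℝ := z + 1 + 4 * (z ^ (220 * m + 10) : ℕ) ^ 2 with hR
  set Λ : ℝ := 16 * m ^ 2 * A ^ m with hΛ
  let E : (Fin m → ℕ) → ℝ := fun h => exp (∑ p ∈ P, (col univ h p : ℝ) / p)
  have m0 : (0 : ℝ) < m := by exact_mod_cast hm1
  have Λ0 : 0 < Λ := by positivity
  have V0 : 0 < V := exp_pos _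
  have hP : ∀ p ∈ P, p.Prime ∧ 4 * m ^ 2 < p := fun p hp =>
    ⟨(Nat.mem_primesLE.1 (mem_filter.1 hp).1).2, (mem_filter.1 hp).2⟩
  have h1 : ∀ h : Fin m → ℕ, (tup (Y + 1) h : ℝ) ≤
      R + 2 * (Y + 1) * V ^ m * Λ + 2 * (Y + 1) * V ^ m / Λ * E h ^ 2 := fun h => by
    have a1 := tup_le (P := P) (Y + 1) hz (fun p hp => ⟨(hP p hp).1,
      (Nat.mem_primesLE.1 (mem_filter.1 hp).1).1, by nlinarith [(hP p hp).2]⟩) h
    have a2 : E h ≤ Λ + E h ^ 2 / Λ := by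
      rw [← sub_le_iff_le_add', le_div_iff₀ Λ0]
      nlinarith [sq_nonneg (E h - Λ), mul_pos (exp_pos (∑ p ∈ P, (col univ h p : ℝ) / p)) Λ0]
    have a3 := mul_le_mul_of_nonneg_left a2 (show (0 : ℝ) ≤ 2 * (Y + 1) * V ^ m by positivity)
    rw [Nat.cast_add, Nat.cast_one, ← mul_assoc] at a1
    rw [mul_add (2 * ((Y : ℝ) + 1) * V ^ m), mul_div_assoc', mul_div_right_comm] at a3
    linarith
  have h2 := card_Kk hL hm hD
  have h3 := sum_exp_col hm1 hD1 hP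
  have h4 : (#{h ∈ box m D | Kk T L h ∧ StrictMono h} : ℝ) ≤ D ^ m := by
    exact_mod_cast (card_filter_le _ _).trans (card_box m D).le
  have h5 : (#{h ∈ box m D | Kk T L h ∧ StrictMono h} : ℝ) ≤ #{h ∈ box m D | Kk T L h} :=
    Nat.cast_le.2 (card_le_card (monotone_filter_right _ fun _ _ h => h.1))
  have h6 : ∑ h ∈ box m D with Kk T L h ∧ StrictMono h, E h ^ 2 ≤ 4 * m ^ 2 * D ^ m :=
    (sum_le_sum_of_subset_of_nonneg (monotone_filter_right _ fun _ _ h => h.2)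
      fun _ _ _ => sq_nonneg _).trans h3
  have h7 : (D : ℝ) ^ m * V ^ m ≤ A ^ m := by
    rw [← mul_pow]; exact pow_le_pow_left₀ (by positivity) hA m
  have h8 : V ^ m / Λ * (4 * m ^ 2 * D ^ m) ≤ 1 / 4 := by
    rw [div_mul_eq_mul_div, div_le_iff₀ Λ0, hΛ]
    nlinarith [mul_le_mul_of_nonneg_left h7 (sq_nonneg (m : ℝ))]
  have h9 : V ^ m * Λ * ((4 * T) ^ (#L * T) * ((2 * D) ^ m * exp (-(#L * (m / 16))))) ≤ 1 / 4 := by
    have b1 : V ^ m * Λ * ((4 * T) ^ (#L * T) * (2 * D) ^ m) ≤ 1 / 4 * exp (#L * (m / 16)) := by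
      have := mul_le_mul_of_nonneg_left h7
        (show (0 : ℝ) ≤ 16 * m ^ 2 * A ^ m * 2 ^ m * (4 * T) ^ (#L * T) by positivity)
      rw [mul_pow, ← pow_mul, mul_comm 2 m, pow_mul] at hpar
      rw [hΛ, mul_pow (2 : ℝ)]
      nlinarith
    rw [exp_neg, ← mul_assoc, ← mul_assoc, ← div_eq_mul_inv, div_le_iff₀ (exp_pos _), mul_assoc]
    exact b1
  rw [Nat.cast_sum]
  refine (sum_le_sum fun h _ => h1 h).trans ?_
  rw [sum_add_distrib, sum_const, nsmul_eq_mul, ← mul_sum, mul_add]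
  have g1 := mul_le_mul_of_nonneg_right h4 (show 0 ≤ R by positivity)
  have g2 := mul_le_mul_of_nonneg_left (h5.trans h2) (show 0 ≤ V ^ m * Λ by positivity)
  have g3 := mul_le_mul_of_nonneg_left h6 (show 0 ≤ V ^ m / Λ by positivity)
  have g4 := mul_le_mul_of_nonneg_left (g2.trans h9) (show (0 : ℝ) ≤ 2 * (Y + 1) by positivity)
  have g5 := mul_le_mul_of_nonneg_left (g3.trans h8) (show (0 : ℝ) ≤ 2 * (Y + 1) by positivity)
  rw [mul_div_assoc, mul_assoc (2 * ((Y : ℝ) + 1)) (V ^ m / Λ)]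
  nlinarith

theorem ev_log (k : ℕ) (C : ℝ) : ∀ᶠ z : ℕ in atTop, C * log z ^ k ≤ z := by
  have h := (isLittleO_pow_log_id_atTop (n := k)).const_mul_left C
  have := tendsto_natCast_atTop_atTop.eventually (h.bound one_pos)
  filter_upwards [this] with z hz
  simp only [id, Real.norm_eq_abs, one_mul, Nat.abs_cast] at hz
  exact (le_abs_self _).trans hz

theorem ev_root {u : ℕ} (hu : 1 ≤ u) (k : ℕ) (C : ℝ) (hC : 0 ≤ C) : ∀ᶠ N : ℕ in atTop,
    ∃ z : ℕ, 2 ≤ z ∧ z ^ u ≤ N ∧ log N ≤ 2 * u * log z ∧ C * log N ^ k ≤ z := by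
  have u0 : u ≠ 0 := by omega
  have ht : Tendsto (Nat.nthRoot u) atTop atTop := tendsto_atTop.2 fun b =>
    (eventually_ge_atTop (b ^ u)).mono fun N hN => (Nat.le_nthRoot_iff u0).2 hN
  filter_upwards [ht.eventually (ev_log k (C * (2 * u) ^ k)),
    ht.eventually_ge_atTop 2, eventually_ge_atTop 1] with N h1 h3 h4
  have h5 : log N ≤ 2 * u * log (Nat.nthRoot u N) := by
    have h6 : N ≤ Nat.nthRoot u N ^ (2 * u) := (Nat.lt_pow_nthRoot_add_one u0 N).le.trans (by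
      rw [pow_mul]; exact Nat.pow_le_pow_left (by nlinarith) u)
    have := log_le_log (by exact_mod_cast h4)
      (show (N : ℝ) ≤ (Nat.nthRoot u N : ℝ) ^ (2 * u) by exact_mod_cast h6)
    rw [log_pow] at this
    exact_mod_cast this
  refine ⟨_, h3, Nat.pow_nthRoot_le (Or.inl u0), h5, le_trans ?_ h1⟩
  rw [mul_assoc, ← mul_pow]
  exact mul_le_mul_of_nonneg_left (pow_le_pow_left₀ (log_natCast_nonneg N) h5 k) hC

theorem ev_pi : ∀ᶠ Y : ℕ in atTop, (Y : ℝ) ≤ 2 * log Y * Nat.primeCounting Y := by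
  filter_upwards [ev_log 1 12, eventually_ge_atTop 2] with Y h1 h2
  have y2 : (2 : ℝ) ≤ Y := by exact_mod_cast h2
  have h3 := Chebyshev.pi_ge Y
  rw [div_le_iff₀ (log_pos (by linarith))] at h3
  have h4 : log ((Y : ℝ) + 1) ≤ 2 * log Y := by
    rw [show 2 * log (Y : ℝ) = log ((Y : ℝ) ^ 2) by rw [log_pow]; norm_num]
    exact log_le_log (by linarith) (by nlinarith)
  rw [pow_one] at h1
  nlinarith [log_two_gt_d9]

theorem exists_par : ∃ (T : ℕ) (L : Finset ℕ), 1 ≤ T ∧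
    (∀ l ∈ L, l.Prime ∧ 2 * T < l ∧ l ≤ 4 * T) ∧ 2 ^ 77 * (64 * (T : ℝ) ^ 2) ^ 14 ≤ exp (#L / 32) := by
  obtain ⟨i, hi⟩ : ∃ i : ℕ,
      5152 * (i + 1) ≤ #((Ioc (2 ^ (i + 1)) (2 ^ (i + 2))).filter Nat.Prime) := by
    by_contra hc
    push Not at hc
    have h1 : ∀ k, Nat.primeCounting (2 ^ (k + 1)) ≤ 5152 * (k + 1) ^ 2 := fun k => by
      induction k with
      | zero => decide
      | succ k ih =>
        have h2 : Nat.primeCounting (2 ^ (k + 2)) ≤ Nat.primeCounting (2 ^ (k + 1)) +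
            #((Ioc (2 ^ (k + 1)) (2 ^ (k + 2))).filter Nat.Prime) := by
          rw [← Nat.primesLE_card_eq_primeCounting, ← Nat.primesLE_card_eq_primeCounting]
          refine le_trans (card_le_card fun p hp => ?_) (card_union_le _ _)
          simp only [mem_union, Nat.mem_primesLE, mem_filter, mem_Ioc] at hp ⊢
          by_cases c : p ≤ 2 ^ (k + 1)
          exacts [Or.inl ⟨c, hp.2⟩, Or.inr ⟨⟨not_le.1 c, hp.1⟩, hp.2⟩]
        have := hc k
        nlinarith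
    have h2 := (Nat.cast_le (α := ℝ)).2 (h1 31)
    have h3 := Chebyshev.pi_ge (2 ^ (31 + 1))
    generalize Nat.primeCounting (2 ^ (31 + 1)) = t at h2 h3
    have l2 := log_two_gt_d9
    have h4 : log ((2 : ℝ) ^ 32 + 1) ≤ 33 * log 2 := by
      rw [show 33 * log 2 = log ((2 : ℝ) ^ 33) by rw [log_pow]; norm_num]
      exact log_le_log (by norm_num) (by norm_num)
    rw [Nat.cast_pow, Nat.cast_ofNat, log_pow, div_le_iff₀ (by positivity)] at h3
    norm_num at h2 h3 h4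
    have h5 : (t : ℝ) ≤ 5275648 := by exact_mod_cast h2
    nlinarith
  refine ⟨2 ^ i, (Ioc (2 ^ (i + 1)) (2 ^ (i + 2))).filter Nat.Prime, Nat.one_le_two_pow,
    fun l hl => ?_, ?_⟩
  · obtain ⟨h1, h2⟩ := mem_filter.1 hl
    have := mem_Ioc.1 h1
    rw [pow_succ, pow_add] at this
    exact ⟨h2, by omega, by omega⟩
  · have h1 := (Nat.cast_le (α := ℝ)).2 hi
    have h2 : (2 : ℝ) ^ 77 * (64 * ((2 ^ i : ℕ) : ℝ) ^ 2) ^ 14 = 2 ^ (161 + 28 * i) := by
      rw [show (64 : ℝ) = 2 ^ 6 by norm_num, Nat.cast_pow, Nat.cast_ofNat, ← pow_mul, ← pow_add,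
        ← pow_mul, ← pow_add]
      exact congrArg _ (by ring)
    have h3 : (2 : ℝ) ^ (161 + 28 * i) ≤ exp 1 ^ (161 + 28 * i) :=
      pow_le_pow_left₀ zero_le_two (by linarith [add_one_le_exp 1]) _
    rw [h2]
    refine h3.trans ?_
    rw [← exp_nat_mul, exp_le_exp]
    push_cast at h1 ⊢
    linarith [Nat.cast_nonneg (α := ℝ) i]

end Pool.Agent.Lib.MP_7f19fc_nt
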